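import Pool.Agent.Helper31.LQ.Goals

/-!
Packet LQ-SYMY.
-/

open MeasureTheory Set
open scoped ENNReal Matrix

noncomputable section

namespace Pool.Agent.Helper83.LQ

open Pool.Agent.Helper31.LQ

variable {n d : ℕ}

/-- The map `Y ↦ (l ↦ y_(ρ l))`. -/
def Phi0 (ρ : Equiv.Perm (Fin (n + 1))) (Y : Fin n → Fin d → ℝ) : Fin n → Fin d → ℝ :=
  fun l => yv Y (ρ l.castSucc)

theorem yv_add (Y Z : Fin n → Fin d → ℝ) (o : Fin (n + 1)) : yv (Y + Z) o = yv Y o + yv Z o := by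
  funext c
  simp only [yv, lin, Pi.add_apply, mul_add, Finset.sum_add_distrib]

theorem yv_smul (r : ℝ) (Y : Fin n → Fin d → ℝ) (o : Fin (n + 1)) :
    yv (r • Y) o = r • yv Y o := by
  funext c
  simp only [yv, lin, Pi.smul_apply, smul_eq_mul, Finset.mul_sum]
  exact Finset.sum_congr rfl fun l _ => by ring

theorem yv_castSucc (hCO : CO) (Y : Fin n → Fin d → ℝ) (l : Fin n) :
    yv Y l.castSucc = Y l := (hCO n d Y).2.2.2.2.2.2.1 l

theorem yv_sum (hCO : CO) (Y : Fin n → Fin d → ℝ) : ∑ o, yv Y o = 0 :=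
  (hCO n d Y).2.2.2.2.2.1

theorem yv_Phi0 (hCO : CO) (ρ : Equiv.Perm (Fin (n + 1))) (Y : Fin n → Fin d → ℝ)
    (o : Fin (n + 1)) : yv (Phi0 ρ Y) o = yv Y (ρ o) := by
  refine Fin.lastCases ?_ (fun l => ?_) o
  · have h1 := yv_sum hCO (Phi0 ρ Y)
    have h2 : ∑ o, yv Y (ρ o) = 0 := by
      rw [Equiv.sum_comp ρ (fun o => yv Y o)]
      exact yv_sum hCO Y
    rw [Fin.sum_univ_castSucc] at h1 h2
    have h3 : ∀ l : Fin n, yv (Phi0 ρ Y) l.castSucc = yv Y (ρ l.castSucc) := fun l =>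
      yv_castSucc hCO _ l
    simp_rw [h3] at h1
    exact add_left_cancel (h1.trans h2.symm)
  · exact yv_castSucc hCO _ l

theorem Phi0_comp (hCO : CO) (ρ σ : Equiv.Perm (Fin (n + 1))) (Y : Fin n → Fin d → ℝ) :
    Phi0 ρ (Phi0 σ Y) = Phi0 (σ * ρ) Y := by
  funext l
  exact yv_Phi0 hCO σ Y _

theorem Phi0_one (hCO : CO) (Y : Fin n → Fin d → ℝ) : Phi0 1 Y = Y := by
  funext l
  exact yv_castSucc hCO Y l

/-- The linear map. -/
def PhiL (ρ : Equiv.Perm (Fin (n + 1))) : (Fin n → Fin d → ℝ) →ₗ[ℝ] (Fin n → Fin d → ℝ) where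
  toFun := Phi0 ρ
  map_add' Y Z := by funext l; exact yv_add Y Z _
  map_smul' r Y := by funext l; exact yv_smul r Y _

/-- The linear equivalence. -/
def PhiE (hCO : CO) (ρ : Equiv.Perm (Fin (n + 1))) :
    (Fin n → Fin d → ℝ) ≃ₗ[ℝ] (Fin n → Fin d → ℝ) :=
  LinearEquiv.ofLinear (PhiL ρ) (PhiL ρ⁻¹)
    (LinearMap.ext fun Y => by
      show Phi0 ρ (Phi0 ρ⁻¹ Y) = Y
      rw [Phi0_comp hCO, inv_mul_cancel, Phi0_one hCO])
    (LinearMap.ext fun Y => by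
      show Phi0 ρ⁻¹ (Phi0 ρ Y) = Y
      rw [Phi0_comp hCO, mul_inv_cancel, Phi0_one hCO])

theorem PhiL_pow (hCO : CO) (ρ : Equiv.Perm (Fin (n + 1))) (k : ℕ) :
    (PhiL (d := d) ρ) ^ k = PhiL (ρ ^ k) := by
  induction k with
  | zero =>
    apply LinearMap.ext
    intro Y
    show Y = Phi0 1 Y
    rw [Phi0_one hCO]
  | succ k ih =>
    rw [pow_succ, ih]
    apply LinearMap.ext
    intro Y
    show Phi0 (ρ ^ k) (Phi0 ρ Y) = Phi0 (ρ ^ (k + 1)) Y
    rw [Phi0_comp hCO, pow_succ']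

theorem PhiL_det (hCO : CO) (ρ : Equiv.Perm (Fin (n + 1))) :
    |LinearMap.det (PhiL (d := d) ρ)| = 1 := by
  have h0 : orderOf ρ ≠ 0 := (orderOf_pos ρ).ne'
  have h1 : |LinearMap.det (PhiL (d := d) ρ)| ^ orderOf ρ = 1 := by
    rw [← abs_pow, ← map_pow, PhiL_pow hCO, pow_orderOf_eq_one]
    have : PhiL (d := d) (1 : Equiv.Perm (Fin (n + 1))) = LinearMap.id := by
      apply LinearMap.ext
      intro Y
      exact Phi0_one hCO Y
    rw [this, LinearMap.det_id, abs_one]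
  exact (pow_eq_one_iff_of_nonneg (abs_nonneg _) h0).1 h1

theorem emb_mul (ρ π : Equiv.Perm (Fin (n + 1))) (s : Fin d → ℝ) (o : Fin (n + 1)) :
    emb d (ρ * π) s (ρ o) = emb d π s o := by
  have h : (ρ * π).symm (ρ o) = π.symm o := by
    rw [Equiv.symm_apply_eq]
    simp
  simp only [emb, h]

theorem mat_Phi0 (hCO : CO) (ρ π : Equiv.Perm (Fin (n + 1))) (Y : Fin n → Fin d → ℝ) :
    mat (Phi0 ρ Y) π = mat Y (ρ * π) := by
  funext a
  show lin (Phi0 ρ Y) (pr (emb d π (Pi.single a 1))) = lin Y (pr (emb d (ρ * π) (Pi.single a 1)))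
  have h4 : ∀ (Z : Fin n → Fin d → ℝ) (t : Fin (n + 1) → ℝ), lin Z (pr t) = ∑ o, t o • yv Z o :=
    fun Z => (hCO n d Z).2.2.2.1
  rw [h4, h4, ← Equiv.sum_comp ρ (fun o => emb d (ρ * π) (Pi.single a 1) o • yv Y o)]
  refine Finset.sum_congr rfl fun o _ => ?_
  rw [emb_mul, yv_Phi0 hCO]

theorem image_sub (hCO : CO) (ρ : Equiv.Perm (Fin (n + 1))) (Y : Fin n → Fin d → ℝ) :
    lin (Phi0 ρ Y) '' D0 n ⊆ lin Y '' D0 n := by
  rintro _ ⟨x, hx, rfl⟩
  have h4 : ∀ (Z : Fin n → Fin d → ℝ) (t : Fin (n + 1) → ℝ), lin Z (pr t) = ∑ o, t o • yv Z o :=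
    fun Z => (hCO n d Z).2.2.2.1
  refine ⟨pr fun o => li x (ρ⁻¹ o), ?_, ?_⟩
  · intro j
    have h10 : ∀ t : Fin (n + 1) → ℝ, ell j (li (pr t)) = ell j t :=
      fun t => (hCO n d Y).2.2.2.2.2.2.2.2.2.1 j t
    rw [h10]
    have h := hx (ρ⁻¹ j)
    unfold ell at h ⊢
    rw [Equiv.sum_comp ρ⁻¹ (fun o => li x o)]
    exact h
  · have h1 : lin (Phi0 ρ Y) x = lin (Phi0 ρ Y) (pr (li x)) := by
      rw [(hCO n d Y).1 x]
    rw [h1, h4, h4, ← Equiv.sum_comp ρ (fun o => li x (ρ⁻¹ o) • yv Y o)]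
    refine Finset.sum_congr rfl fun o _ => ?_
    rw [yv_Phi0 hCO]
    simp

theorem grm_Q0 (hCO : CO) (Y : Fin n → Fin d → ℝ) :
    grm (Q0 n) Y = Matrix.of fun a b => ∑ o, yv Y o a * yv Y o b := by
  funext a b
  show ∑ l, ∑ m, Y l a * Q0 n l m * Y m b = ∑ o, yv Y o a * yv Y o b
  rw [Fin.sum_univ_castSucc]
  simp_rw [yv_castSucc hCO]
  have h8 : yv Y (Fin.last n) = -∑ l, Y l := (hCO n d Y).2.2.2.2.2.2.2.1
  rw [h8]
  have h1 : ∀ l m : Fin n, Y l a * Q0 n l m * Y m b =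
      (if l = m then Y l a * Y m b else 0) + Y l a * Y m b := by
    intro l m
    have : Q0 n l m = (if l = m then 1 else 0) + 1 := by
      unfold Q0
      rw [Matrix.add_apply, Matrix.one_apply]
      rfl
    rw [this]
    split_ifs <;> ring
  simp_rw [h1, Finset.sum_add_distrib]
  simp only [Finset.sum_ite_eq, Finset.mem_univ, if_true, Pi.neg_apply, Finset.sum_apply]
  rw [neg_mul_neg, Finset.sum_mul_sum]

theorem eta_Phi0 (hCO : CO) (ρ : Equiv.Perm (Fin (n + 1))) (Y : Fin n → Fin d → ℝ) :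
    eta (Q0 n) (Phi0 ρ Y) = eta (Q0 n) Y := by
  have h : grm (Q0 n) (Phi0 ρ Y) = grm (Q0 n) Y := by
    rw [grm_Q0 hCO, grm_Q0 hCO]
    funext a b
    show ∑ o, yv (Phi0 ρ Y) o a * yv (Phi0 ρ Y) o b = ∑ o, yv Y o a * yv Y o b
    rw [← Equiv.sum_comp ρ (fun o => yv Y o a * yv Y o b)]
    refine Finset.sum_congr rfl fun o _ => ?_
    rw [yv_Phi0 hCO]
  unfold eta
  rw [h]

theorem gSYMY (hCO : CO) : SYMY := by
  intro n d ρ
  set e : (Fin n → Fin d → ℝ) ≃L[ℝ] (Fin n → Fin d → ℝ) :=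
    (PhiE hCO ρ).toContinuousLinearEquiv with he
  refine ⟨e.toHomeomorph.toMeasurableEquiv, fun Y l => rfl, ?_, ?_⟩
  · refine ⟨e.toHomeomorph.toMeasurableEquiv.measurable, ?_⟩
    have h1 : LinearMap.det (PhiL (d := d) ρ) ≠ 0 := by
      intro h
      have := PhiL_det (d := d) hCO ρ
      rw [h, abs_zero] at this
      exact zero_ne_one this
    have h2 := Measure.map_linearMap_addHaar_eq_smul_addHaar
      (volume : Measure (Fin n → Fin d → ℝ)) h1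
    rw [abs_inv, PhiL_det hCO, inv_one, ENNReal.ofReal_one, one_smul] at h2
    exact h2
  · intro Y
    have hL : e.toHomeomorph.toMeasurableEquiv Y = Phi0 ρ Y := rfl
    rw [hL]
    have hy : ∀ o, yv (Phi0 ρ Y) o = yv Y (ρ o) := yv_Phi0 hCO ρ Y
    have hm : ∀ π, mat (Phi0 ρ Y) π = mat Y (ρ * π) := fun π => mat_Phi0 hCO ρ π Y
    have hn : ∀ π, nu (Phi0 ρ Y) π = nu Y (ρ * π) := by
      intro π
      unfold nu
      rw [hm]
    have hk : ∀ π o, kp (Phi0 ρ Y) π o = kp Y (ρ * π) (ρ o) := by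
      intro π o
      unfold kp
      rw [hn, hy]
    have hs : ∀ (π : Equiv.Perm (Fin (n + 1))) o, (ρ * π).symm (ρ o) = π.symm o := by
      intro π o
      rw [Equiv.symm_apply_eq]
      simp
    have hq : ∀ (π : Equiv.Perm (Fin (n + 1))) (p : ℝ → Prop),
        (∀ o : Fin (n + 1), d ≤ (π.symm o).val → p (kp (Phi0 ρ Y) π o)) ↔
        ∀ o : Fin (n + 1), d ≤ ((ρ * π).symm o).val → p (kp Y (ρ * π) o) := by
      intro π p
      rw [← ρ.forall_congr_right (q := fun o => d ≤ ((ρ * π).symm o).val → p (kp Y (ρ * π) o))]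
      refine forall_congr' fun o => ?_
      rw [hs, hk]
    have hf : ∀ π, IsFac (Phi0 ρ Y) π ↔ IsFac Y (ρ * π) := by
      intro π
      unfold IsFac
      rw [hm, hq π fun x => 0 < x]
    have hg : GP (Phi0 ρ Y) ↔ GP Y := by
      unfold GP
      rw [← (Equiv.mulLeft ρ).forall_congr_right (q := fun π : Equiv.Perm (Fin (n + 1)) =>
        (mat Y π).det ≠ 0 ∧ ∀ o : Fin (n + 1), d ≤ (π.symm o).val → kp Y π o ≠ 0)]
      refine forall_congr' fun π => ?_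
      rw [hm, hq π fun x => x ≠ 0]
      rfl
    refine ⟨hy, hm, hn, hk, hf, hg, ?_, ?_, eta_Phi0 hCO ρ Y⟩
    · intro R
      unfold Good
      rw [hg]
      refine and_congr Iff.rfl (and_congr ?_ ?_)
      · rw [← ρ.forall_congr_right (q := fun o => ∀ c, |yv Y o c| ≤ R)]
        refine forall_congr' fun o => ?_
        rw [hy]
      · rw [← (Equiv.mulLeft ρ).forall_congr_right (q := fun π : Equiv.Perm (Fin (n + 1)) =>
          IsFac Y π → 1 ≤ R * |(mat Y π).det| ∧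
            ∀ o : Fin (n + 1), d ≤ (π.symm o).val → 1 ≤ R * kp Y π o)]
        refine forall_congr' fun π => ?_
        rw [hf, hm, hq π fun x => 1 ≤ R * x]
        rfl
    · apply Subset.antisymm (image_sub hCO ρ Y)
      have h := image_sub hCO ρ⁻¹ (Phi0 ρ Y)
      rwa [Phi0_comp hCO, mul_inv_cancel, Phi0_one hCO] at h

end Pool.Agent.Helper83.LQ
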