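import Pool.Agent.Helper31.LQ.Goals

/-!
Packet LQ-X3.
-/

open MeasureTheory Set
open scoped ENNReal Matrix

namespace Pool.Agent.Helper83.LQ

open Pool.Agent.Helper31.LQ

theorem sl_zero {m : ℕ} {P : (Fin m → ℝ) → ℝ} (h : SL m P) : P 0 = 0 := by
  have := h.hom 0 le_rfl 0
  simpa using this

theorem sl_sum {m : ℕ} {P : (Fin m → ℝ) → ℝ} (h : SL m P) {ι : Type*} (s : Finset ι)
    (f : ι → Fin m → ℝ) : P (∑ i ∈ s, f i) ≤ ∑ i ∈ s, P (f i) := by
  classical
  induction s using Finset.induction_on with
  | empty => simp [sl_zero h]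
  | insert a s ha ih =>
    rw [Finset.sum_insert ha, Finset.sum_insert ha]
    exact (h.add _ _).trans (by linarith)

theorem sl_update {m : ℕ} {P : (Fin (m + 1) → ℝ) → ℝ} (h : SL (m + 1) P) (a : Fin (m + 1)) :
    SL (m + 1) fun t => P (Function.update t a 0) where
  cont := h.cont.comp (continuous_id.update a continuous_const)
  nn t := h.nn _
  add s t := by
    have e : Function.update (s + t) a 0 = Function.update s a 0 + Function.update t a 0 := by
      funext b
      by_cases hb : b = a
      · subst hb; simp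
      · simp [Function.update_of_ne hb]
    show P (Function.update (s + t) a 0) ≤ _
    rw [e]
    exact h.add _ _
  hom c hc t := by
    have e : Function.update (c • t) a 0 = c • Function.update t a 0 := by
      funext b
      by_cases hb : b = a
      · subst hb; simp
      · simp [Function.update_of_ne hb]
    show P (Function.update (c • t) a 0) = _
    rw [e]
    exact h.hom c hc _

theorem smul_eq_sum {m : ℕ} (t : Fin (m + 1) → ℝ) :
    (m : ℝ) • t = ∑ a, Function.update t a 0 := by
  funext b
  rw [Finset.sum_apply, Fin.sum_univ_succAbove _ b]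
  simp

theorem ex_update {m : ℕ} (P : (Fin (m + 1) → ℝ) → ℝ) (a : Fin (m + 1)) :
    Ex (m + 1) (fun t => P (Function.update t a 0)) =
      Ex m fun s => P (a.insertNth (α := fun _ => ℝ) 0 s) := by
  have hmp := volume_preserving_piFinSuccAbove (fun _ : Fin (m + 1) => ℝ) a
  have hemb := (MeasurableEquiv.piFinSuccAbove (fun _ : Fin (m + 1) => ℝ) a).measurableEmbedding
  have hset : pos (m + 1) = (MeasurableEquiv.piFinSuccAbove (fun _ : Fin (m + 1) => ℝ) a) ⁻¹'
      (Ioi 0 ×ˢ pos m) := by
    ext t
    constructor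
    · intro ht
      exact ⟨ht a, fun j => ht (a.succAbove j)⟩
    · rintro ⟨h1, h2⟩ b
      rcases Fin.eq_self_or_eq_succAbove a b with h | ⟨j, h⟩
      · rw [h]; exact h1
      · rw [h]; exact h2 j
  have hfun : ∀ t : Fin (m + 1) → ℝ,
      Real.exp (-∑ b, t b) * P (Function.update t a 0) =
      (fun z : ℝ × (Fin m → ℝ) => Real.exp (-z.1) *
        (Real.exp (-∑ b, z.2 b) * P (a.insertNth (α := fun _ => ℝ) 0 z.2)))
        ((MeasurableEquiv.piFinSuccAbove (fun _ : Fin (m + 1) => ℝ) a) t) := by
    intro t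
    show _ = Real.exp (-t a) * (Real.exp (-∑ b, t (a.succAbove b)) *
      P (a.insertNth (α := fun _ => ℝ) 0 fun j => t (a.succAbove j)))
    have e : Function.update t a 0 =
        (a.insertNth (α := fun _ => ℝ) 0 fun j => t (a.succAbove j)) := by
      funext b
      rcases Fin.eq_self_or_eq_succAbove a b with h | ⟨j, h⟩
      · subst h; simp
      · rw [h, Function.update_of_ne (Fin.succAbove_ne a j), Fin.insertNth_apply_succAbove]
    rw [e, Fin.sum_univ_succAbove _ a, neg_add, Real.exp_add, mul_assoc]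
  have h0 := hmp.setIntegral_preimage_emb hemb
    (fun z : ℝ × (Fin m → ℝ) => Real.exp (-z.1) *
        (Real.exp (-∑ b, z.2 b) * P (a.insertNth (α := fun _ => ℝ) 0 z.2))) (Ioi 0 ×ˢ pos m)
  have h1 : Ex (m + 1) (fun t => P (Function.update t a 0)) = ∫ t in pos (m + 1),
      (fun z : ℝ × (Fin m → ℝ) => Real.exp (-z.1) *
        (Real.exp (-∑ b, z.2 b) * P (a.insertNth (α := fun _ => ℝ) 0 z.2)))
        ((MeasurableEquiv.piFinSuccAbove (fun _ : Fin (m + 1) => ℝ) a) t) := by
    unfold Ex
    exact integral_congr_ae (Filter.Eventually.of_forall fun t => hfun t)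
  rw [h1, hset, h0]
  unfold Ex
  have h := setIntegral_prod_mul (μ := (volume : Measure ℝ))
    (ν := (volume : Measure (Fin m → ℝ))) (fun x : ℝ => Real.exp (-x))
    (fun s => Real.exp (-∑ b, s b) * P (a.insertNth (α := fun _ => ℝ) 0 s)) (Ioi 0) (pos m)
  rw [integral_exp_neg_Ioi_zero, one_mul] at h
  rw [← h]
  rfl

theorem gX3 (hX1 : X1) : X3 := by
  intro m P hP
  have hint : ∀ Q : (Fin (m + 1) → ℝ) → ℝ, SL (m + 1) Q →
      IntegrableOn (fun t => Real.exp (-∑ a, t a) * Q t) (pos (m + 1)) := by
    intro Q hQ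
    have := (hX1 (m + 1) Q hQ 1 one_pos).1
    simpa only [one_mul] using this
  have h1 : (m : ℝ) * Ex (m + 1) P = ∫ t in pos (m + 1), Real.exp (-∑ a, t a) * (m * P t) := by
    unfold Ex
    rw [← integral_const_mul]
    congr 1
    funext t
    ring
  have h2 : ∑ a : Fin (m + 1), Ex m (fun s => P (a.insertNth (α := fun _ => ℝ) 0 s)) =
      ∫ t in pos (m + 1), ∑ a, Real.exp (-∑ b, t b) * P (Function.update t a 0) := by
    rw [integral_finsetSum]
    · refine Finset.sum_congr rfl fun a _ => ?_
      rw [← ex_update P a]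
      rfl
    · intro a _
      exact hint _ (sl_update hP a)
  rw [h1, h2]
  apply setIntegral_mono
  · have := (hint P hP).const_mul (m : ℝ)
    refine this.congr (Filter.Eventually.of_forall fun t => ?_)
    show (m : ℝ) * (Real.exp (-∑ a, t a) * P t) = Real.exp (-∑ a, t a) * (m * P t)
    ring
  · exact integrable_finsetSum _ fun a _ => hint _ (sl_update hP a)
  · intro t
    show Real.exp (-∑ a, t a) * (m * P t) ≤ ∑ a, Real.exp (-∑ b, t b) * P (Function.update t a 0)
    rw [← Finset.mul_sum]
    apply mul_le_mul_of_nonneg_left _ (Real.exp_pos _).le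
    rw [← hP.hom m (Nat.cast_nonneg m) t, smul_eq_sum]
    exact sl_sum hP _ _

end Pool.Agent.Helper83.LQ
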